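import Pool.Agent.L7h12.SV.Stm

set_option autoImplicit false

/-!
Project SV (MP_b7f146_ag): SAME and CMB1.
-/

namespace Pool.Agent.L7h65.SV

open Polynomial Set
open Pool.Agent.L7h12.SV

lemma strict (hM : S_MON) (hC : S_COL) (p : ℝ[X]) (hp : p.derivative ≠ 0) (x1 x2 : ℝ)
    (h1 : Rg p x1) (h2 : Rg p x2) (h : col p x1 = col p x2) :
    StrictMonoOn (fun x => p.eval x) (uIcc x1 x2) ∨
      StrictAntiOn (fun x => p.eval x) (uIcc x1 x2) := by
  rcases lt_trichotomy x1 x2 with hlt | heq | hlt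
  · rw [uIcc_of_le hlt.le]
    have hr := (hC p hp).2.1 x1 x2 hlt.le h1 h2 h
    rcases hM p x1 x2 hlt (fun x hx1 hx2 => hr x hx1.le hx2.le) with h | h
    · exact Or.inl h.1
    · exact Or.inr h.1
  · subst heq
    left
    rw [uIcc_self]
    intro a ha b hb hab
    rw [mem_singleton_iff] at ha hb
    rw [ha, hb] at hab
    exact absurd hab (lt_irrefl _)
  · rw [uIcc_comm, uIcc_of_le hlt.le]
    have hr := (hC p hp).2.1 x2 x1 hlt.le h2 h1 h.symm
    rcases hM p x2 x1 hlt (fun x hx1 hx2 => hr x hx1.le hx2.le) with h | h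
    · exact Or.inl h.1
    · exact Or.inr h.1

theorem s_SAME (hB : S_BOX) (hM : S_MON) (hC : S_COL) : S_SAME := by
  intro p f K hp hf hK w hw w' hw' r1 r2 r3 r4 c1 c2
  have a1 := strict hM hC p hp w.1 w'.1 r1 r3 c1
  have a2 := strict hM hC f hf w.2 w'.2 r2 r4 c2
  have hw1 : (w.1, w.2) ∈ K := hw
  have hw2 : (w'.1, w'.2) ∈ Z p f := hw'
  refine hB p f K hK w.1 w'.1 w.2 w'.2 hw1 hw2 ?_ ?_
  · intro x hx
    rcases a1 with a1 | a1
    · exact a1.monotoneOn.mapsTo_uIcc hx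
    · exact a1.antitoneOn.mapsTo_uIcc hx
  · rcases a2 with a2 | a2
    · exact a2.injOn
    · exact a2.injOn

/-- two different neighbours -/
lemma two_nb (T : Set (ℤ × ℤ))
    (h : ∀ t ∈ T, ∃ σ τ : ℤ, (σ = 1 ∨ σ = -1) ∧ (τ = 1 ∨ τ = -1) ∧
      ((t.1 + σ, t.2) ∈ T ∨ (t.1, t.2 + τ) ∈ T) ∧ ((t.1 - σ, t.2) ∈ T ∨ (t.1, t.2 - τ) ∈ T))
    (t : ℤ × ℤ) (ht : t ∈ T) : ∃ u ∈ T, ∃ d ∈ T, u ≠ d ∧
      (u.1 + u.2 = t.1 + t.2 + 1 ∨ u.1 + u.2 = t.1 + t.2 - 1) ∧
      (d.1 + d.2 = t.1 + t.2 + 1 ∨ d.1 + d.2 = t.1 + t.2 - 1) := by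
  obtain ⟨σ, τ, hσ, hτ, h1, h2⟩ := h t ht
  rcases h1 with h1 | h1
  · rcases h2 with h2 | h2
    · refine ⟨_, h1, _, h2, ?_, ?_, ?_⟩
      · intro he
        have := congrArg Prod.fst he
        simp only at this
        omega
      · simp only; omega
      · simp only; omega
    · refine ⟨_, h1, _, h2, ?_, ?_, ?_⟩
      · intro he
        have := congrArg Prod.fst he
        simp only at this
        omega
      · simp only; omega
      · simp only; omega
  · rcases h2 with h2 | h2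
    · refine ⟨_, h1, _, h2, ?_, ?_, ?_⟩
      · intro he
        have := congrArg Prod.fst he
        simp only at this
        omega
      · simp only; omega
      · simp only; omega
    · refine ⟨_, h1, _, h2, ?_, ?_, ?_⟩
      · intro he
        have := congrArg Prod.snd he
        simp only at this
        omega
      · simp only; omega
      · simp only; omega

theorem s_CMB1 : S_CMB1 := by
  intro T hT hne h
  obtain ⟨t, ht⟩ := hne
  obtain ⟨u, hu, d, hd, hud, su, sd⟩ := two_nb T h t ht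
  have key : ∃ w ∈ T, w ≠ t ∧ (w.1 + w.2 = u.1 + u.2 + 1 ∨ w.1 + w.2 = u.1 + u.2 - 1) := by
    obtain ⟨u2, hu2, d2, hd2, hne2, s1, s2⟩ := two_nb T h u hu
    by_cases hc : u2 = t
    · refine ⟨d2, hd2, ?_, s2⟩
      intro h3
      exact hne2 (hc.trans h3.symm)
    · exact ⟨u2, hu2, hc, s1⟩
  obtain ⟨w, hw, hwt, sw⟩ := key
  have n1 : t ≠ u := by rintro rfl; omega
  have n2 : t ≠ d := by rintro rfl; omega
  have n3 : w ≠ u := by rintro rfl; omega
  have n4 : w ≠ d := by rintro rfl; omega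
  have hcard : ({t, u, d, w} : Finset (ℤ × ℤ)).card = 4 := by
    rw [Finset.card_insert_of_notMem, Finset.card_insert_of_notMem,
      Finset.card_insert_of_notMem, Finset.card_singleton]
    · simp [Ne.symm n4]
    · simp [hud, Ne.symm n3]
    · simp [n1, n2, Ne.symm hwt]
  have hsub : (({t, u, d, w} : Finset (ℤ × ℤ)) : Set (ℤ × ℤ)) ⊆ T := by
    intro x hx
    simp only [Finset.coe_insert, Finset.coe_singleton, mem_insert_iff, mem_singleton_iff] at hx
    rcases hx with rfl | rfl | rfl | rfl <;> assumption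
  have := Set.ncard_le_ncard hsub hT
  rw [Set.ncard_coe_finset, hcard] at this
  exact this

end Pool.Agent.L7h65.SV
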